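import Mathlib
import Pool.Agent.Work.MP_4cd38d_pr.Interface

set_option autoImplicit false

/-!
A sequence of languages with boundedly many residuals takes a value twice.
-/

namespace Pool.HD.helper77

open Pool.Agent.Work.MP_4cd38d_lc Pool.Agent.Work.MP_4cd38d_pr

lemma finite_words (A : Set (ℕ ⊕ ℕ)) (hA : A.Finite) (n : ℕ) :
    {ω : List (ℕ ⊕ ℕ) | ω.length < n ∧ ∀ c ∈ ω, c ∈ A}.Finite := by
  have h : ∀ m, {ω : List (ℕ ⊕ ℕ) | ω.length = m ∧ ∀ c ∈ ω, c ∈ A}.Finite := by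
    intro m
    induction m with
    | zero =>
      apply (Set.finite_singleton []).subset
      rintro ω ⟨h, _⟩
      exact List.length_eq_zero_iff.1 h
    | succ m ih =>
      apply ((hA.prod ih).image fun p : (ℕ ⊕ ℕ) × List (ℕ ⊕ ℕ) => p.1 :: p.2).subset
      rintro ω ⟨h1, h2⟩
      cases ω with
      | nil => simp at h1
      | cons c w =>
        exact ⟨(c, w), ⟨h2 c List.mem_cons_self,
          by simpa using h1, fun d hd => h2 d (List.mem_cons_of_mem _ hd)⟩, rfl⟩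
  apply ((Set.finite_lt_nat n).biUnion fun m _ => h m).subset
  rintro ω ⟨h1, h2⟩
  simp only [Set.mem_iUnion]
  exact ⟨ω.length, h1, rfl, h2⟩

theorem stmt_FAM (hNER : Stmt_NER) : Stmt_FAM := by
  intro s s' N k₀ W hW hN
  let A : Set (ℕ ⊕ ℕ) := Sum.inl '' {a | a < s} ∪ Sum.inr '' {b | b < s'}
  have hA : A.Finite := ((Set.finite_lt_nat s).image _).union ((Set.finite_lt_nat s').image _)
  let T : Set (List (ℕ ⊕ ℕ)) := {ω | ω.length < N * N ∧ ∀ c ∈ ω, c ∈ A}
  have hT : T.Finite := finite_words A hA (N * N)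
  have hfin : (Set.range fun k : ℕ => W (k₀ + k) ∩ T).Finite := by
    apply hT.finite_subsets.subset
    rintro _ ⟨k, rfl⟩
    exact Set.inter_subset_right
  obtain ⟨i, j, hne, heq⟩ : ∃ i j : ℕ, i ≠ j ∧ W (k₀ + i) ∩ T = W (k₀ + j) ∩ T := by
    by_contra hcon
    push Not at hcon
    have hinj : Function.Injective fun k : ℕ => W (k₀ + k) ∩ T := by
      intro a b hab
      by_contra h
      exact hcon a b h hab
    exact Set.infinite_range_of_injective hinj hfin
  obtain ⟨i, j, hlt, heq⟩ : ∃ i j : ℕ, i < j ∧ W (k₀ + i) ∩ T = W (k₀ + j) ∩ T := by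
    rcases lt_or_gt_of_ne hne with h | h
    · exact ⟨i, j, h, heq⟩
    · exact ⟨j, i, h, heq.symm⟩
  refine ⟨k₀ + i, k₀ + j, by omega, by omega, ?_⟩
  have hin : ∀ k, ∀ ω ∈ W (k₀ + k), ∀ c ∈ ω, c ∈ A := by
    intro k ω hω c hc
    obtain ⟨h1, h2⟩ := hW (k₀ + k) (by omega) ω hω
    cases c with
    | inl a =>
      refine Or.inl ⟨a, h1 a ?_, rfl⟩
      unfold pl
      rw [List.mem_filterMap]
      exact ⟨_, hc, rfl⟩
    | inr b =>
      refine Or.inr ⟨b, h2 b ?_, rfl⟩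
      unfold pr
      rw [List.mem_filterMap]
      exact ⟨_, hc, rfl⟩
  refine hNER _ _ N N (hN _ (by omega)) (hN _ (by omega)) fun ω hω => ?_
  constructor
  · intro h
    have : ω ∈ W (k₀ + i) ∩ T := ⟨h, hω, hin i ω h⟩
    rw [heq] at this
    exact this.1
  · intro h
    have : ω ∈ W (k₀ + j) ∩ T := ⟨h, hω, hin j ω h⟩
    rw [← heq] at this
    exact this.1

end Pool.HD.helper77
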