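import Mathlib
import Pool.Agent.Work.MP_4cd38d_pr.Interface

set_option autoImplicit false

/-!
The overhangs of the canonical interleavings.
-/

namespace Pool.HD.helper77

open Pool.Agent.Work.MP_4cd38d_lc Pool.Agent.Work.MP_4cd38d_pr

lemma pl_append (ω ρ : List (ℕ ⊕ ℕ)) : pl (ω ++ ρ) = pl ω ++ pl ρ := by
  simp [pl, List.filterMap_append]

lemma pr_append (ω ρ : List (ℕ ⊕ ℕ)) : pr (ω ++ ρ) = pr ω ++ pr ρ := by
  simp [pr, List.filterMap_append]

lemma pl_inl (a : ℕ) (ω : List (ℕ ⊕ ℕ)) : pl (Sum.inl a :: ω) = a :: pl ω := by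
  simp [pl]

lemma pl_inr (a : ℕ) (ω : List (ℕ ⊕ ℕ)) : pl (Sum.inr a :: ω) = pl ω := by
  simp [pl]

lemma pr_inl (a : ℕ) (ω : List (ℕ ⊕ ℕ)) : pr (Sum.inl a :: ω) = pr ω := by
  simp [pr]

lemma pr_inr (a : ℕ) (ω : List (ℕ ⊕ ℕ)) : pr (Sum.inr a :: ω) = a :: pr ω := by
  simp [pr]

lemma pl_map_inl (ξ : List ℕ) : pl (ξ.map Sum.inl) = ξ := by
  induction ξ with
  | nil => rfl
  | cons a ξ ih => rw [List.map_cons, pl_inl, ih]

lemma pl_map_inr (ξ : List ℕ) : pl (ξ.map Sum.inr) = [] := by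
  induction ξ with
  | nil => rfl
  | cons a ξ ih => rw [List.map_cons, pl_inr, ih]

lemma pr_map_inr (ξ : List ℕ) : pr (ξ.map Sum.inr) = ξ := by
  induction ξ with
  | nil => rfl
  | cons a ξ ih => rw [List.map_cons, pr_inr, ih]

lemma pr_map_inl (ξ : List ℕ) : pr (ξ.map Sum.inl) = [] := by
  induction ξ with
  | nil => rfl
  | cons a ξ ih => rw [List.map_cons, pr_inl, ih]

lemma o1_append (G : ℕ → List ℕ) (ω ρ : List (ℕ ⊕ ℕ)) : o1 G (ω ++ ρ) = o1 G ω ++ o1 G ρ := by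
  simp [o1, pl_append, List.flatMap_append]

lemma o2_append (G : ℕ → List ℕ) (ω ρ : List (ℕ ⊕ ℕ)) : o2 G (ω ++ ρ) = o2 G ω ++ o2 G ρ := by
  simp [o2, pr_append, List.flatMap_append]

lemma o1_inl (G : ℕ → List ℕ) (a : ℕ) (ω : List (ℕ ⊕ ℕ)) :
    o1 G (Sum.inl a :: ω) = G a ++ o1 G ω := by
  simp [o1, pl_inl]

lemma o2_inr (G : ℕ → List ℕ) (a : ℕ) (ω : List (ℕ ⊕ ℕ)) :
    o2 G (Sum.inr a :: ω) = G a ++ o2 G ω := by
  simp [o2, pr_inr]

lemma o1_inr (G : ℕ → List ℕ) (a : ℕ) (ω : List (ℕ ⊕ ℕ)) :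
    o1 G (Sum.inr a :: ω) = o1 G ω := by
  simp [o1, pl_inr]

lemma o2_inl (G : ℕ → List ℕ) (a : ℕ) (ω : List (ℕ ⊕ ℕ)) :
    o2 G (Sum.inl a :: ω) = o2 G ω := by
  simp [o2, pr_inl]

/-- The last right letter of a word. -/
lemma last_right (ω : List (ℕ ⊕ ℕ)) (h : pr ω ≠ []) :
    ∃ (ω₀ : List (ℕ ⊕ ℕ)) (b : ℕ) (ζ : List ℕ), ω = ω₀ ++ Sum.inr b :: ζ.map Sum.inl := by
  induction ω using List.reverseRecOn with
  | nil => simp [pr] at h
  | append_singleton ω c ih =>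
    cases c with
    | inl a =>
      have h1 : pr ω ≠ [] := by
        rw [pr_append] at h
        simpa [pr] using h
      obtain ⟨ω₀, b, ζ, rfl⟩ := ih h1
      exact ⟨ω₀, b, ζ ++ [a], by simp⟩
    | inr b => exact ⟨ω, b, [], by simp⟩

/-- The last left letter of a word. -/
lemma last_left (ω : List (ℕ ⊕ ℕ)) (h : pl ω ≠ []) :
    ∃ (ω₀ : List (ℕ ⊕ ℕ)) (a : ℕ) (ξ : List ℕ), ω = ω₀ ++ Sum.inl a :: ξ.map Sum.inr := by
  induction ω using List.reverseRecOn with
  | nil => simp [pl] at h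
  | append_singleton ω c ih =>
    cases c with
    | inr a =>
      have h1 : pl ω ≠ [] := by
        rw [pl_append] at h
        simpa [pl] using h
      obtain ⟨ω₀, b, ζ, rfl⟩ := ih h1
      exact ⟨ω₀, b, ζ ++ [a], by simp⟩
    | inl b => exact ⟨ω, b, [], by simp⟩

/-- Comparison of two prefixes. -/
lemma overhang {u v x y : List ℕ} (h : u ++ x = v ++ y) (hl : u.length ≤ v.length) :
    ∃ β, v = u ++ β ∧ x = β ++ y := by
  have h1 : u <+: v ++ y := ⟨x, h⟩
  have h2 : v <+: v ++ y := List.prefix_append _ _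
  obtain ⟨β, rfl⟩ := List.prefix_of_prefix_length_le h1 h2 hl
  refine ⟨β, rfl, ?_⟩
  rw [List.append_assoc] at h
  exact List.append_cancel_left h

theorem stmt_OV2 : Stmt_OV2 := by
  intro s s' G G' hNE ω ρ hmem hlt
  obtain ⟨hl, hr, hcan, heq⟩ := hmem
  have hne : pl ω ≠ [] := by
    intro h0
    simp [o1, h0] at hlt
  obtain ⟨ω₀, a, ξ, rfl⟩ := last_left ω hne
  have hlen : (o1 G ω₀).length ≤ (o2 G' ω₀).length := by
    have := (hcan ω₀ (Sum.inl a) (by simp)).1 rfl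
    exact this
  have htot : o1 G ω₀ ++ (G a ++ o1 G ρ) = o2 G' ω₀ ++ (ξ.flatMap G' ++ o2 G' ρ) := by
    have := heq
    rw [o1_append, o2_append, o1_append, o2_append, o1_inl, o2_inl] at this
    simpa [o1, o2, pl_map_inr, pr_map_inr] using this
  obtain ⟨β, hβ, h2⟩ := overhang htot hlen
  have ho1 : o1 G (ω₀ ++ Sum.inl a :: ξ.map Sum.inr) = o1 G ω₀ ++ G a := by
    rw [o1_append, o1_inl]
    simp [o1, pl_map_inr]
  have ho2 : o2 G' (ω₀ ++ Sum.inl a :: ξ.map Sum.inr) = o2 G' ω₀ ++ ξ.flatMap G' := by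
    rw [o2_append, o2_inl]
    simp [o2, pr_map_inr]
  rw [ho1, ho2, hβ] at hlt
  have h3 : (β ++ ξ.flatMap G') ++ o2 G' ρ = G a ++ o1 G ρ := by
    rw [h2, List.append_assoc]
  obtain ⟨α, hα, h4⟩ := overhang h3 (by simp at hlt ⊢; omega)
  refine ⟨ω₀, a, ξ, β, α, rfl, ?_, ?_, hlen, hβ, ?_, ?_, ?_⟩
  · apply hl
    rw [pl_append, pl_append, pl_inl]
    simp
  · intro b hb
    apply hr
    rw [pr_append, pr_append, pr_inl, pr_map_inr]
    simp [hb]
  · rw [ho1, ho2, hβ, hα]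
    simp
  · intro h0
    rw [hα, h0] at hlt
    simp at hlt
  · rw [hα]

theorem stmt_OV1 : Stmt_OV1 := by
  intro s s' G G' hNE ω ρ hmem hle
  obtain ⟨hl, hr, hcan, heq⟩ := hmem
  rw [o1_append, o2_append] at heq
  rcases Nat.lt_or_ge (o1 G ω).length (o2 G' ω).length with hlt | hge
  swap
  · left
    exact (List.append_inj heq (le_antisymm hle hge)).1
  right
  have hne : pr ω ≠ [] := by
    intro h0
    simp [o2, h0] at hlt
  -- the rest has a left letter
  obtain ⟨β, hβ, h2⟩ := overhang heq hle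
  have hβ0 : β ≠ [] := by
    intro h0
    rw [hβ, h0] at hlt
    simp at hlt
  have hρ : pl ρ ≠ [] := by
    intro h0
    have : o1 G ρ = [] := by simp [o1, h0]
    rw [this] at h2
    exact hβ0 (List.append_eq_nil_iff.1 h2.symm).1
  obtain ⟨a, x', hx⟩ := List.exists_cons_of_ne_nil hρ
  obtain ⟨ω₀, b, ζ, hω⟩ := last_right ω hne
  have hlen : ¬ (o1 G ω₀).length ≤ (o2 G' ω₀).length := by
    intro h
    have := (hcan ω₀ (Sum.inr b) (by rw [hω]; simp)).2 h
    simp at this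
  have ho1 : o1 G ω = o1 G ω₀ ++ ζ.flatMap G := by
    rw [hω, o1_append, o1_inr]
    simp [o1, pl_map_inl]
  have ho2 : o2 G' ω = o2 G' ω₀ ++ G' b := by
    rw [hω, o2_append, o2_inr]
    simp [o2, pr_map_inl]
  -- the block of `b` starts before the end of the left output
  have h5 : o2 G' ω₀ ++ G' b = o1 G ω ++ β := by rw [← ho2, hβ]
  obtain ⟨γ, hγ, h6⟩ := overhang h5 (by rw [ho1]; simp; omega)
  have hdrop : (G' b).drop γ.length = β := by
    rw [h6]; simp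
  refine ⟨a, b, pr ρ, γ.length, ?_, ?_, ?_, ?_, ?_, ?_⟩
  · apply hl; rw [pl_append, hx]; simp
  · apply hr; rw [pr_append, hω, pr_append, pr_inr]; simp
  · intro c hc
    apply hr; rw [pr_append]; simp [hc]
  · rw [h6, List.length_append]
    have := List.length_pos_of_ne_nil hβ0
    omega
  · rw [hdrop, hβ]
  · rw [List.flatMap_cons, h6, List.append_assoc, List.drop_left]
    have h7 : o1 G ρ = β ++ o2 G' ρ := h2
    have h8 : (pr ρ).flatMap G' = o2 G' ρ := rfl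
    rw [h8, ← h7]
    refine ⟨x'.flatMap G, ?_⟩
    simp [o1, hx]

lemma canon_append_iff (G G' : ℕ → List ℕ) (ω ρ : List (ℕ ⊕ ℕ)) :
    Canon G G' (ω ++ ρ) ↔ Canon G G' ω ∧ ∀ ρ' c, (ρ' ++ [c]) <+: ρ →
      (c.isLeft = true ↔ (o1 G (ω ++ ρ')).length ≤ (o2 G' (ω ++ ρ')).length) := by
  constructor
  · intro h
    refine ⟨fun ω' c hc => h ω' c (hc.trans (List.prefix_append _ _)), fun ρ' c hc => ?_⟩
    apply h
    rw [List.append_assoc]
    exact (List.prefix_append_right_inj ω).2 hc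
  · rintro ⟨h1, h2⟩ ω' c hc
    rcases Nat.lt_or_ge ω'.length ω.length with hlt | hge
    · apply h1
      apply List.prefix_of_prefix_length_le hc (List.prefix_append _ _)
      simp; omega
    · have hp : ω <+: ω' :=
        List.prefix_of_prefix_length_le (List.prefix_append _ _)
          ((List.prefix_append ω' [c]).trans hc) hge
      obtain ⟨ρ', rfl⟩ := hp
      apply h2
      rw [List.append_assoc] at hc
      exact (List.prefix_append_right_inj ω).1 hc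

theorem stmt_RES : Stmt_RES := by
  intro s s' G G' ω ω' h1 h2 h3
  have key : ∀ ω ω' : List (ℕ ⊕ ℕ), (∃ ρ, ω' ++ ρ ∈ WW s s' G G') →
      ((∃ β, o2 G' ω = o1 G ω ++ β ∧ o2 G' ω' = o1 G ω' ++ β) ∨
      (∃ α, α ≠ [] ∧ o1 G ω = o2 G' ω ++ α ∧ o1 G ω' = o2 G' ω' ++ α)) →
      ∀ ρ, ω ++ ρ ∈ WW s s' G G' → ω' ++ ρ ∈ WW s s' G G' := by
    intro ω ω' ⟨ρ₀, hρ₀⟩ h ρ hρ
    obtain ⟨a1, a2, a3, a4⟩ := hρ₀
    obtain ⟨b1, b2, b3, b4⟩ := hρ
    rw [canon_append_iff] at a3 b3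
    refine ⟨?_, ?_, ?_, ?_⟩
    · intro a ha
      rw [pl_append, List.mem_append] at ha
      rcases ha with ha | ha
      · apply a1; rw [pl_append]; simp [ha]
      · apply b1; rw [pl_append]; simp [ha]
    · intro a ha
      rw [pr_append, List.mem_append] at ha
      rcases ha with ha | ha
      · apply a2; rw [pr_append]; simp [ha]
      · apply b2; rw [pr_append]; simp [ha]
    · rw [canon_append_iff]
      refine ⟨a3.1, fun ρ' c hc => ?_⟩
      rw [b3.2 ρ' c hc]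
      rw [o1_append, o2_append, o1_append, o2_append]
      simp only [List.length_append]
      rcases h with ⟨β, h5, h6⟩ | ⟨α, _, h5, h6⟩
      · rw [h5, h6]; simp only [List.length_append]; omega
      · rw [h5, h6]; simp only [List.length_append]; omega
    · rw [o1_append, o2_append] at b4 ⊢
      rcases h with ⟨β, h5, h6⟩ | ⟨α, _, h5, h6⟩
      · rw [h5, List.append_assoc] at b4
        rw [h6, List.append_assoc, List.append_cancel_left b4]
      · rw [h5, List.append_assoc] at b4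
        rw [h6, List.append_assoc, List.append_cancel_left b4]
  intro ρ
  constructor
  · exact key ω ω' h2 h3 ρ
  · apply key ω' ω h1
    rcases h3 with ⟨β, h5, h6⟩ | ⟨α, h4, h5, h6⟩
    · exact Or.inl ⟨β, h6, h5⟩
    · exact Or.inr ⟨α, h4, h6, h5⟩

end Pool.HD.helper77
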