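import Mathlib
import Pool.Agent.Work.MP_4cd38d_pr.Interface
import Pool.Agent.Work.MP_4cd38d_pr_helper77.OV
import Pool.Agent.Work.MP_4cd38d_lc.Comp

set_option autoImplicit false

/-!
The certificates are primitive recursive.
-/

namespace Pool.HD.helper77

open Pool.Agent.Work.MP_4cd38d_lc Pool.Agent.Work.MP_4cd38d_pr Primrec

lemma primrec_blk : Primrec fun q : (HSystem × ℕ) × ℕ => blk q.1.1 q.1.2 q.2 := by
  have h1 : Primrec fun q : (HSystem × ℕ) × ℕ => (([q.2], q.1.1.2) : HSystem) :=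
    Primrec.pair (list_cons.comp snd (Primrec.const [])) (snd.comp (fst.comp fst))
  exact primrec_term.comp h1 (snd.comp fst)

lemma primrec_sz : Primrec sz := list_length.comp (fst.comp snd)

lemma primrec_blk' {α : Type*} [Primcodable α] {S : α → HSystem} {k a : α → ℕ} (hS : Primrec S)
    (hk : Primrec k) (ha : Primrec a) : Primrec fun x => blk (S x) (k x) (a x) :=
  primrec_blk.comp (Primrec.pair (Primrec.pair hS hk) ha)

/-- Reading a letter. -/
def stp (p : (HSystem × HSystem) × ℕ) (s : (List ℕ × List ℕ) × Bool) (c : ℕ ⊕ ℕ) :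
    (List ℕ × List ℕ) × Bool :=
  Sum.casesOn c
    (fun a => ((s.1.1 ++ blk p.1.1 p.2 a, s.1.2),
      s.2 && (decide (a < sz p.1.1) && decide (s.1.1.length ≤ s.1.2.length))))
    (fun b => ((s.1.1, s.1.2 ++ blk p.1.2 p.2 b),
      s.2 && (decide (b < sz p.1.2) && decide (s.1.2.length < s.1.1.length))))

/-- Reading a word. -/
def rd (p : (HSystem × HSystem) × ℕ) (ω : List (ℕ ⊕ ℕ)) : (List ℕ × List ℕ) × Bool :=
  ω.foldl (stp p) (([], []), true)

lemma rd_append (p : (HSystem × HSystem) × ℕ) (ω : List (ℕ ⊕ ℕ)) (c : ℕ ⊕ ℕ) :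
    rd p (ω ++ [c]) = stp p (rd p ω) c := by
  simp [rd, List.foldl_append]

lemma rd_out (p : (HSystem × HSystem) × ℕ) (ω : List (ℕ ⊕ ℕ)) :
    (rd p ω).1 = (o1 (fun a => blk p.1.1 p.2 a) ω, o2 (fun b => blk p.1.2 p.2 b) ω) := by
  induction ω using List.reverseRecOn with
  | nil => rfl
  | append_singleton ω c ih =>
    rw [rd_append]
    cases c with
    | inl a =>
      rw [o1_append, o2_append, o1_inl, o2_inl]
      simp [stp, ih, o1, o2, pl, pr]
    | inr b =>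
      rw [o1_append, o2_append, o1_inr, o2_inr]
      simp [stp, ih, o1, o2, pl, pr]

lemma canon_snoc (G G' : ℕ → List ℕ) (ω : List (ℕ ⊕ ℕ)) (c : ℕ ⊕ ℕ) :
    Canon G G' (ω ++ [c]) ↔ Canon G G' ω ∧
      (c.isLeft = true ↔ (o1 G ω).length ≤ (o2 G' ω).length) := by
  constructor
  · intro h
    exact ⟨fun ω' d hd => h ω' d (hd.trans (List.prefix_append _ _)), h ω c (List.prefix_refl _)⟩
  · rintro ⟨h1, h2⟩ ω' d hd
    rcases Nat.lt_or_ge (ω' ++ [d]).length (ω ++ [c]).length with hlt | hge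
    · apply h1
      apply List.prefix_of_prefix_length_le hd (List.prefix_append _ _)
      simp at hlt ⊢
      omega
    · have h3 : ω' ++ [d] = ω ++ [c] := hd.eq_of_length (le_antisymm hd.length_le hge)
      obtain ⟨rfl, h4⟩ := List.append_inj' h3 rfl
      simp only [List.cons.injEq, and_true] at h4
      subst h4
      exact h2

lemma rd_ok (p : (HSystem × HSystem) × ℕ) (ω : List (ℕ ⊕ ℕ)) :
    (rd p ω).2 = true ↔ (∀ a ∈ pl ω, a < sz p.1.1) ∧ (∀ b ∈ pr ω, b < sz p.1.2) ∧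
      Canon (fun a => blk p.1.1 p.2 a) (fun b => blk p.1.2 p.2 b) ω := by
  induction ω using List.reverseRecOn with
  | nil =>
    simp only [rd, List.foldl_nil, true_iff]
    refine ⟨by simp [pl], by simp [pr], fun ω' c h => ?_⟩
    simp at h
  | append_singleton ω c ih =>
    rw [rd_append, canon_snoc]
    have hout := rd_out p ω
    cases c with
    | inl a =>
      simp only [stp, Bool.and_eq_true, decide_eq_true_eq]
      rw [ih, hout, pl_append, pr_append, pl_inl, pr_inl]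
      simp only [pl, pr, List.filterMap_nil, List.mem_append, List.mem_cons, List.not_mem_nil,
        or_false, Sum.isLeft_inl, true_iff]
      constructor
      · rintro ⟨⟨h1, h2, h3⟩, h4, h5⟩
        refine ⟨?_, h2, h3, h5⟩
        rintro x (hx | rfl)
        · exact h1 x hx
        · exact h4
      · rintro ⟨h1, h2, h3, h5⟩
        exact ⟨⟨fun x hx => h1 x (Or.inl hx), h2, h3⟩, h1 a (Or.inr rfl), h5⟩
    | inr b =>
      simp only [stp, Bool.and_eq_true, decide_eq_true_eq]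
      rw [ih, hout, pl_append, pr_append, pl_inr, pr_inr]
      simp only [pl, pr, List.filterMap_nil, List.mem_append, List.mem_cons, List.not_mem_nil,
        or_false, Sum.isLeft_inr, Bool.false_eq_true, false_iff, not_le]
      constructor
      · rintro ⟨⟨h1, h2, h3⟩, h4, h5⟩
        refine ⟨h1, ?_, h3, h5⟩
        rintro x (hx | rfl)
        · exact h2 x hx
        · exact h4
      · rintro ⟨h1, h2, h3, h5⟩
        exact ⟨⟨h1, fun x hx => h2 x (Or.inl hx), h3⟩, h2 b (Or.inr rfl), h5⟩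

lemma primrec_rd : Primrec fun q : ((HSystem × HSystem) × ℕ) × List (ℕ ⊕ ℕ) => rd q.1 q.2 := by
  have hP : Primrec fun x : ((((HSystem × HSystem) × ℕ) × List (ℕ ⊕ ℕ)) ×
      (((List ℕ × List ℕ) × Bool) × (ℕ ⊕ ℕ))) => x.1.1 := fst.comp fst
  have hS1 : Primrec fun x : ((((HSystem × HSystem) × ℕ) × List (ℕ ⊕ ℕ)) ×
      (((List ℕ × List ℕ) × Bool) × (ℕ ⊕ ℕ))) => x.2.1 := fst.comp snd
  have hC : Primrec fun x : ((((HSystem × HSystem) × ℕ) × List (ℕ ⊕ ℕ)) ×
      (((List ℕ × List ℕ) × Bool) × (ℕ ⊕ ℕ))) => x.2.2 := snd.comp snd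
  have hl : Primrec₂ fun (x : ((((HSystem × HSystem) × ℕ) × List (ℕ ⊕ ℕ)) ×
      (((List ℕ × List ℕ) × Bool) × (ℕ ⊕ ℕ)))) (a : ℕ) =>
      (((x.2.1.1.1 ++ blk x.1.1.1.1 x.1.1.2 a, x.2.1.1.2),
      x.2.1.2 && (decide (a < sz x.1.1.1.1) &&
        decide (x.2.1.1.1.length ≤ x.2.1.1.2.length))) : (List ℕ × List ℕ) × Bool) := by
    have s11 := (fst.comp (fst.comp (hS1.comp fst)) : Primrec fun y :
      (((((HSystem × HSystem) × ℕ) × List (ℕ ⊕ ℕ)) ×
      (((List ℕ × List ℕ) × Bool) × (ℕ ⊕ ℕ))) × ℕ) => y.1.2.1.1.1)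
    have s12 := (snd.comp (fst.comp (hS1.comp fst)) : Primrec fun y :
      (((((HSystem × HSystem) × ℕ) × List (ℕ ⊕ ℕ)) ×
      (((List ℕ × List ℕ) × Bool) × (ℕ ⊕ ℕ))) × ℕ) => y.1.2.1.1.2)
    have s2 := (snd.comp (hS1.comp fst) : Primrec fun y :
      (((((HSystem × HSystem) × ℕ) × List (ℕ ⊕ ℕ)) ×
      (((List ℕ × List ℕ) × Bool) × (ℕ ⊕ ℕ))) × ℕ) => y.1.2.1.2)
    have p1 := (fst.comp (fst.comp (hP.comp fst)) : Primrec fun y :
      (((((HSystem × HSystem) × ℕ) × List (ℕ ⊕ ℕ)) ×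
      (((List ℕ × List ℕ) × Bool) × (ℕ ⊕ ℕ))) × ℕ) => y.1.1.1.1.1)
    have p3 := (snd.comp (hP.comp fst) : Primrec fun y :
      (((((HSystem × HSystem) × ℕ) × List (ℕ ⊕ ℕ)) ×
      (((List ℕ × List ℕ) × Bool) × (ℕ ⊕ ℕ))) × ℕ) => y.1.1.1.2)
    have hb := primrec_blk.comp (Primrec.pair (Primrec.pair p1 p3) snd)
    refine Primrec.pair (Primrec.pair (list_append.comp s11 hb) s12) ?_
    refine Primrec.and.comp s2 (Primrec.and.comp ?_ ?_)
    · exact PrimrecPred.decide (nat_lt.comp snd (primrec_sz.comp p1))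
    · exact PrimrecPred.decide (nat_le.comp (list_length.comp s11) (list_length.comp s12))
  have hr : Primrec₂ fun (x : ((((HSystem × HSystem) × ℕ) × List (ℕ ⊕ ℕ)) ×
      (((List ℕ × List ℕ) × Bool) × (ℕ ⊕ ℕ)))) (b : ℕ) =>
      (((x.2.1.1.1, x.2.1.1.2 ++ blk x.1.1.1.2 x.1.1.2 b),
      x.2.1.2 && (decide (b < sz x.1.1.1.2) &&
        decide (x.2.1.1.2.length < x.2.1.1.1.length))) : (List ℕ × List ℕ) × Bool) := by
    have s11 := (fst.comp (fst.comp (hS1.comp fst)) : Primrec fun y :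
      (((((HSystem × HSystem) × ℕ) × List (ℕ ⊕ ℕ)) ×
      (((List ℕ × List ℕ) × Bool) × (ℕ ⊕ ℕ))) × ℕ) => y.1.2.1.1.1)
    have s12 := (snd.comp (fst.comp (hS1.comp fst)) : Primrec fun y :
      (((((HSystem × HSystem) × ℕ) × List (ℕ ⊕ ℕ)) ×
      (((List ℕ × List ℕ) × Bool) × (ℕ ⊕ ℕ))) × ℕ) => y.1.2.1.1.2)
    have s2 := (snd.comp (hS1.comp fst) : Primrec fun y :
      (((((HSystem × HSystem) × ℕ) × List (ℕ ⊕ ℕ)) ×
      (((List ℕ × List ℕ) × Bool) × (ℕ ⊕ ℕ))) × ℕ) => y.1.2.1.2)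
    have p2 := (snd.comp (fst.comp (hP.comp fst)) : Primrec fun y :
      (((((HSystem × HSystem) × ℕ) × List (ℕ ⊕ ℕ)) ×
      (((List ℕ × List ℕ) × Bool) × (ℕ ⊕ ℕ))) × ℕ) => y.1.1.1.1.2)
    have p3 := (snd.comp (hP.comp fst) : Primrec fun y :
      (((((HSystem × HSystem) × ℕ) × List (ℕ ⊕ ℕ)) ×
      (((List ℕ × List ℕ) × Bool) × (ℕ ⊕ ℕ))) × ℕ) => y.1.1.1.2)
    have hb := primrec_blk.comp (Primrec.pair (Primrec.pair p2 p3) snd)
    refine Primrec.pair (Primrec.pair s11 (list_append.comp s12 hb)) ?_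
    refine Primrec.and.comp s2 (Primrec.and.comp ?_ ?_)
    · exact PrimrecPred.decide (nat_lt.comp snd (primrec_sz.comp p2))
    · exact PrimrecPred.decide (nat_lt.comp (list_length.comp s12) (list_length.comp s11))
  have hstep : Primrec₂ fun (q : ((HSystem × HSystem) × ℕ) × List (ℕ ⊕ ℕ))
      (r : ((List ℕ × List ℕ) × Bool) × (ℕ ⊕ ℕ)) => stp q.1 r.1 r.2 :=
    sumCasesOn hC hl hr
  exact list_foldl snd (Primrec.const (([], []), true)) hstep

theorem stmt_CMW : Stmt_CMW := by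
  have h1 : PrimrecPred fun q : ((HSystem × HSystem) × ℕ) × List (ℕ ⊕ ℕ) =>
      (rd q.1 q.2).2 = true :=
    Primrec.eq.comp (snd.comp primrec_rd) (Primrec.const true)
  have h2 : PrimrecPred fun q : ((HSystem × HSystem) × ℕ) × List (ℕ ⊕ ℕ) =>
      (rd q.1 q.2).1.1 = (rd q.1 q.2).1.2 :=
    Primrec.eq.comp (fst.comp (fst.comp primrec_rd)) (snd.comp (fst.comp primrec_rd))
  refine (h1.and h2).of_eq fun q => ?_
  rw [rd_ok, rd_out]
  constructor
  · rintro ⟨⟨a1, a2, a3⟩, a4⟩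
    exact ⟨a1, a2, a3, a4⟩
  · rintro ⟨a1, a2, a3, a4⟩
    exact ⟨⟨a1, a2, a3⟩, a4⟩

end Pool.HD.helper77
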