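import Mathlib
import Pool.Agent.Work.MP_4cd38d_pr_helper77.CMW

set_option autoImplicit false

/-!
The certificates are primitive recursive.
-/

namespace Pool.HD.helper77

open Pool.Agent.Work.MP_4cd38d_lc Pool.Agent.Work.MP_4cd38d_pr Primrec

/-! ### The bounded quantifiers -/

lemma primrec_forall_lt {α : Type*} [Primcodable α] {p : α → ℕ → Prop} {N : α → ℕ}
    (hp : PrimrecPred fun q : α × ℕ => p q.1 q.2) (hN : Primrec N) :
    PrimrecPred fun a => ∀ n < N a, p a n := by
  have h1 : PrimrecRel fun (n : ℕ) (a : α) => p a n :=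
    PrimrecPred.comp hp (Primrec.pair snd fst)
  have h2 : PrimrecRel fun (L : List ℕ) (a : α) => ∀ n ∈ L, p a n := h1.forall_mem_list
  have h3 : PrimrecPred fun a => ∀ n ∈ List.range (N a), p a n :=
    h2.comp (list_range.comp hN) Primrec.id
  exact h3.of_eq fun a => by simp

lemma primrec_forall_mem {α β : Type*} [Primcodable α] [Primcodable β] {p : α → β → Prop}
    {L : α → List β} (hp : PrimrecPred fun q : α × β => p q.1 q.2) (hL : Primrec L) :
    PrimrecPred fun a => ∀ n ∈ L a, p a n := by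
  have h1 : PrimrecRel fun (n : β) (a : α) => p a n :=
    PrimrecPred.comp hp (Primrec.pair snd fst)
  exact h1.forall_mem_list.comp hL Primrec.id

lemma primrec_iff {α : Type*} [Primcodable α] {p q : α → Prop} (hp : PrimrecPred p)
    (hq : PrimrecPred q) : PrimrecPred fun a => (p a ↔ q a) :=
  ((hp.and hq).or (hp.not.and hq.not)).of_eq fun a => by tauto

lemma primrec_wordsOf : Primrec₂ wordsOf := by
  have h1 : Primrec₂ fun (l : List (ℕ ⊕ ℕ)) (r : ℕ × List (List (ℕ ⊕ ℕ))) =>
      r.2.flatMap fun w => l.map fun c => c :: w := by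
    refine list_flatMap (snd.comp snd) ?_
    refine list_map (fst.comp fst) ?_
    exact list_cons.comp snd (snd.comp fst)
  have h2 : Primrec₂ fun (l : List (ℕ ⊕ ℕ)) (n : ℕ) =>
      (Nat.rec [[]] (fun _ IH => IH.flatMap fun w => l.map fun c => c :: w) n :
        List (List (ℕ ⊕ ℕ))) :=
    Primrec.nat_rec (Primrec.const ([[]] : List (List (ℕ ⊕ ℕ)))) h1
  refine h2.of_eq fun l n => ?_
  induction n with
  | zero => rfl
  | succ n ih =>
    simp only [wordsOf, ← ih]

lemma primrec_alph : Primrec₂ alph := by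
  have h1 : Primrec fun q : ℕ × ℕ => (List.range q.1).map (Sum.inl : ℕ → ℕ ⊕ ℕ) :=
    list_map (list_range.comp fst) (Primrec.sumInl.comp snd)
  have h2 : Primrec fun q : ℕ × ℕ => (List.range q.2).map (Sum.inr : ℕ → ℕ ⊕ ℕ) :=
    list_map (list_range.comp snd) (Primrec.sumInr.comp snd)
  exact list_append.comp h1 h2

section Comp

variable {α : Type*} [Primcodable α] {S S' : α → HSystem} {k : α → ℕ}

lemma primrec_lenblk {a : α → ℕ} (hS : Primrec S) (hk : Primrec k) (ha : Primrec a) :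
    Primrec fun x => (blk (S x) (k x) (a x)).length :=
  list_length.comp (primrec_blk' hS hk ha)

lemma primrec_sumblk (hS : Primrec S) (hk : Primrec k) : Primrec fun x =>
    ((List.range (sz (S x))).map fun a => (blk (S x) (k x) a).length + 1).sum := by
  refine primrec_rsum (primrec_sz.comp hS) ?_
  have h : Primrec fun q : α × ℕ => (blk (S q.1) (k q.1) q.2).length :=
    primrec_lenblk (hS.comp fst) (hk.comp fst) snd
  exact Primrec.succ.comp h

lemma primrec_lam (hS : Primrec S) (hS' : Primrec S') (hk : Primrec k) : Primrec fun x =>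
    lam (sz (S x)) (sz (S' x)) (fun a => blk (S x) (k x) a) (fun b => blk (S' x) (k x) b) :=
  nat_add.comp (nat_add.comp (Primrec.const 2) (primrec_sumblk hS hk)) (primrec_sumblk hS' hk)

lemma primrec_ne1 (hS : Primrec S) (hk : Primrec k) :
    PrimrecPred fun x => ∀ a < sz (S x), blk (S x) (k x) a ≠ [] := by
  refine primrec_forall_lt ?_ (primrec_sz.comp hS)
  have h : Primrec fun q : α × ℕ => blk (S q.1) (k q.1) q.2 :=
    primrec_blk' (hS.comp fst) (hk.comp fst) snd
  exact (Primrec.eq.comp h (Primrec.const [])).not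

lemma primrec_NES (hS : Primrec S) (hS' : Primrec S') (hk : Primrec k) :
    PrimrecPred fun x => NES (S x) (S' x) (k x) :=
  (primrec_ne1 hS hk).and (primrec_ne1 hS' hk)

lemma primrec_noeq {N : α → ℕ} (hS : Primrec S) (hS' : Primrec S') (hN : Primrec N) :
    PrimrecPred fun a => ∀ n < N a, term (S a) n ≠ term (S' a) n := by
  refine primrec_forall_lt ?_ hN
  have h1 : Primrec fun q : α × ℕ => term (S q.1) q.2 := primrec_term.comp (hS.comp fst) snd
  have h2 : Primrec fun q : α × ℕ => term (S' q.1) q.2 := primrec_term.comp (hS'.comp fst) snd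
  exact (Primrec.eq.comp h1 h2).not

lemma primrec_mem (hW : Stmt_CMW) {w : α → List (ℕ ⊕ ℕ)} (hS : Primrec S) (hS' : Primrec S')
    (hk : Primrec k) (hw : Primrec w) : PrimrecPred fun x => w x ∈ WS (S x) (S' x) (k x) := by
  have h : Primrec fun x => (((S x, S' x), k x), w x) :=
    Primrec.pair (Primrec.pair (Primrec.pair hS hS') hk) hw
  exact PrimrecPred.comp hW h

lemma primrec_agree (hW : Stmt_CMW) {j N : α → ℕ} (hS : Primrec S) (hS' : Primrec S')
    (hk : Primrec k) (hj : Primrec j) (hN : Primrec N) :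
    PrimrecPred fun x => ∀ n < N x, ∀ ω ∈ wordsOf (alph (sz (S x)) (sz (S' x))) n,
      (ω ∈ WS (S x) (S' x) (k x) ↔ ω ∈ WS (S x) (S' x) (j x)) := by
  refine primrec_forall_lt ?_ hN
  have hL : Primrec fun q : α × ℕ => wordsOf (alph (sz (S q.1)) (sz (S' q.1))) q.2 :=
    primrec_wordsOf.comp (primrec_alph.comp (primrec_sz.comp (hS.comp fst))
      (primrec_sz.comp (hS'.comp fst))) snd
  have h1 : PrimrecPred fun q : (α × ℕ) × List (ℕ ⊕ ℕ) =>
      q.2 ∈ WS (S q.1.1) (S' q.1.1) (k q.1.1) :=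
    primrec_mem hW (hS.comp (fst.comp fst)) (hS'.comp (fst.comp fst)) (hk.comp (fst.comp fst)) snd
  have h2 : PrimrecPred fun q : (α × ℕ) × List (ℕ ⊕ ℕ) =>
      q.2 ∈ WS (S q.1.1) (S' q.1.1) (j q.1.1) :=
    primrec_mem hW (hS.comp (fst.comp fst)) (hS'.comp (fst.comp fst)) (hj.comp (fst.comp fst)) snd
  exact primrec_forall_mem (p := fun (q : α × ℕ) (ω : List (ℕ ⊕ ℕ)) =>
    (ω ∈ WS (S q.1) (S' q.1) (k q.1) ↔ ω ∈ WS (S q.1) (S' q.1) (j q.1))) (primrec_iff h1 h2) hL

lemma primrec_hstep : Primrec₂ hstep := by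
  refine list_flatMap (α := HSystem × List ℕ) (f := fun q => q.2)
    (g := fun q a => q.1.2.1.getD a []) snd ?_
  have h : Primrec fun q : (HSystem × List ℕ) × ℕ => q.1.1.2.1 :=
    fst.comp (snd.comp (fst.comp fst))
  exact (list_getD []).comp h snd

lemma primrec_hp : Primrec fun q : (HSystem × ℕ) × ℕ => hp q.1.1 q.1.2 q.2 := by
  have h1 : Primrec₂ fun (q : (HSystem × ℕ) × ℕ) (w : List ℕ) => hstep q.1.1 w :=
    primrec_hstep.comp (fst.comp (fst.comp fst)) snd
  exact nat_iterate (snd.comp fst) (list_cons.comp snd (Primrec.const [])) h1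

lemma primrec_lenhp {a : α → ℕ} (hS : Primrec S) (hk : Primrec k) (ha : Primrec a) :
    Primrec fun x => (hp (S x) (k x) (a x)).length :=
  list_length.comp (primrec_hp.comp (Primrec.pair (Primrec.pair hS hk) ha))

lemma primrec_cmp1 (hS : Primrec S) (hS' : Primrec S') (hk : Primrec k) :
    PrimrecPred fun x => ∀ a < sz (S x), ∀ b < sz (S' x),
      (hp (S x) (k x) a).length ≤ (hp (S' x) (k x) b).length ∧
        0 < (hp (S' x) (k x) b).length := by
  refine primrec_forall_lt ?_ (primrec_sz.comp hS)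
  refine primrec_forall_lt (α := α × ℕ) (p := fun q b =>
    (hp (S q.1) (k q.1) q.2).length ≤ (hp (S' q.1) (k q.1) b).length ∧
        0 < (hp (S' q.1) (k q.1) b).length) (N := fun q => sz (S' q.1)) ?_
    (primrec_sz.comp (hS'.comp fst))
  have ha : Primrec fun x : (α × ℕ) × ℕ => (hp (S x.1.1) (k x.1.1) x.1.2).length :=
    primrec_lenhp (hS.comp (fst.comp fst)) (hk.comp (fst.comp fst)) (snd.comp fst)
  have hb : Primrec fun x : (α × ℕ) × ℕ => (hp (S' x.1.1) (k x.1.1) x.2).length :=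
    primrec_lenhp (hS'.comp (fst.comp fst)) (hk.comp (fst.comp fst)) snd
  exact (nat_le.comp ha hb).and (nat_lt.comp (Primrec.const 0) hb)

lemma primrec_cmp2 {N : α → ℕ} (hS : Primrec S) (hS' : Primrec S') (hk : Primrec k)
    (hN : Primrec N) :
    PrimrecPred fun x => ∀ r < k x, ∀ a < sz (S x), ∀ b < sz (S' x),
      (S x).1.length * (blk (S x) (N x + r) a).length < (blk (S' x) (N x + r) b).length := by
  refine primrec_forall_lt ?_ hk
  refine primrec_forall_lt (α := α × ℕ) (p := fun q a => ∀ b < sz (S' q.1),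
      (S q.1).1.length * (blk (S q.1) (N q.1 + q.2) a).length <
        (blk (S' q.1) (N q.1 + q.2) b).length) (N := fun q => sz (S q.1)) ?_
    (primrec_sz.comp (hS.comp fst))
  refine primrec_forall_lt (α := (α × ℕ) × ℕ) (p := fun q b =>
      (S q.1.1).1.length * (blk (S q.1.1) (N q.1.1 + q.1.2) q.2).length <
        (blk (S' q.1.1) (N q.1.1 + q.1.2) b).length) (N := fun q => sz (S' q.1.1)) ?_
    (primrec_sz.comp (hS'.comp (fst.comp fst)))
  have f1 : Primrec fun x : ((α × ℕ) × ℕ) × ℕ => x.1.1.1 := fst.comp (fst.comp fst)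
  have hn : Primrec fun x : ((α × ℕ) × ℕ) × ℕ => N x.1.1.1 + x.1.1.2 :=
    nat_add.comp (hN.comp f1) (snd.comp (fst.comp fst))
  have ha : Primrec fun x : ((α × ℕ) × ℕ) × ℕ =>
      (blk (S x.1.1.1) (N x.1.1.1 + x.1.1.2) x.1.2).length :=
    primrec_lenblk (hS.comp f1) hn (snd.comp fst)
  have hb : Primrec fun x : ((α × ℕ) × ℕ) × ℕ =>
      (blk (S' x.1.1.1) (N x.1.1.1 + x.1.1.2) x.2).length :=
    primrec_lenblk (hS'.comp f1) hn snd
  have hu : Primrec fun x : ((α × ℕ) × ℕ) × ℕ => (S x.1.1.1).1.length :=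
    list_length.comp (fst.comp (hS.comp f1))
  exact nat_lt.comp (nat_mul.comp hu ha) hb

end Comp

theorem stmt_CM1 (hW : Stmt_CMW) : Stmt_CM1 := by
  have hS : Primrec fun q : (HSystem × HSystem) × (ℕ × ℕ) => q.1.1 := fst.comp fst
  have hS' : Primrec fun q : (HSystem × HSystem) × (ℕ × ℕ) => q.1.2 := snd.comp fst
  have hi : Primrec fun q : (HSystem × HSystem) × (ℕ × ℕ) => q.2.1 := fst.comp snd
  have hj : Primrec fun q : (HSystem × HSystem) × (ℕ × ℕ) => q.2.2 := snd.comp snd
  have h1 : PrimrecPred fun q : (HSystem × HSystem) × (ℕ × ℕ) => q.2.1 < q.2.2 :=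
    nat_lt.comp hi hj
  have h2 := primrec_NES hS hS' hi
  have h3 := primrec_NES hS hS' hj
  have h4 := primrec_agree hW hS hS' hi hj
    (nat_mul.comp (primrec_lam hS hS' hi) (primrec_lam hS hS' hj))
  have h5 := primrec_noeq hS hS' hj
  exact h1.and (h2.and (h3.and (h4.and h5)))

theorem stmt_CM2 : Stmt_CM2 := by
  have hS : Primrec fun q : (HSystem × HSystem) × (ℕ × ℕ) => q.1.1 := fst.comp fst
  have hS' : Primrec fun q : (HSystem × HSystem) × (ℕ × ℕ) => q.1.2 := snd.comp fst
  have hi : Primrec fun q : (HSystem × HSystem) × (ℕ × ℕ) => q.2.1 := fst.comp snd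
  have hj : Primrec fun q : (HSystem × HSystem) × (ℕ × ℕ) => q.2.2 := snd.comp snd
  have h1 : PrimrecPred fun q : (HSystem × HSystem) × (ℕ × ℕ) => 0 < q.2.1 :=
    nat_lt.comp (Primrec.const 0) hi
  have h2 : PrimrecPred fun q : (HSystem × HSystem) × (ℕ × ℕ) => q.1.2.1 ≠ [] :=
    (Primrec.eq.comp (fst.comp hS') (Primrec.const [])).not
  have h3 := primrec_cmp1 hS hS' hi
  have h4 := primrec_cmp2 hS hS' hi hj
  have h5 := primrec_noeq hS hS' hj
  exact h1.and (h2.and ((h3.and h4).and h5))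

end Pool.HD.helper77
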