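import Mathlib
import Pool.Agent.Work.MP_4cd38d_pr.Interface
import Pool.Agent.Work.MP_4cd38d_lc.Comp

set_option autoImplicit false

/-!
Assembly of the theorem on primitive HD0L systems.
-/

namespace Pool.HD.helper77

open Pool.Agent.Work.MP_4cd38d_lc Pool.Agent.Work.MP_4cd38d_pr

/-! ### Words over the alphabet -/

lemma mem_wordsOf (l : List (ℕ ⊕ ℕ)) (n : ℕ) (ω : List (ℕ ⊕ ℕ)) :
    ω ∈ wordsOf l n ↔ ω.length = n ∧ ∀ c ∈ ω, c ∈ l := by
  induction n generalizing ω with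
  | zero =>
    simp only [wordsOf, List.mem_singleton]
    constructor
    · rintro rfl; simp
    · rintro ⟨h, _⟩; exact List.length_eq_zero_iff.1 h
  | succ n ih =>
    simp only [wordsOf, List.mem_flatMap, List.mem_map]
    constructor
    · rintro ⟨w, hw, c, hc, rfl⟩
      obtain ⟨h1, h2⟩ := (ih w).1 hw
      refine ⟨by simp [h1], ?_⟩
      intro d hd
      rcases List.mem_cons.1 hd with rfl | hd
      · exact hc
      · exact h2 d hd
    · rintro ⟨h1, h2⟩
      cases ω with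
      | nil => simp at h1
      | cons c w =>
        exact ⟨w, (ih w).2 ⟨by simpa using h1, fun d hd => h2 d (List.mem_cons_of_mem _ hd)⟩, c,
          h2 c List.mem_cons_self, rfl⟩

lemma inl_mem_pl {a : ℕ} {ω : List (ℕ ⊕ ℕ)} : a ∈ pl ω ↔ Sum.inl a ∈ ω := by
  unfold pl
  rw [List.mem_filterMap]
  constructor
  · rintro ⟨c, hc, h⟩
    cases c with
    | inl b => simp at h; subst h; exact hc
    | inr b => simp at h
  · intro h
    exact ⟨_, h, rfl⟩

lemma inr_mem_pr {a : ℕ} {ω : List (ℕ ⊕ ℕ)} : a ∈ pr ω ↔ Sum.inr a ∈ ω := by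
  unfold pr
  rw [List.mem_filterMap]
  constructor
  · rintro ⟨c, hc, h⟩
    cases c with
    | inl b => simp at h
    | inr b => simp at h; subst h; exact hc
  · intro h
    exact ⟨_, h, rfl⟩

lemma mem_alph {s s' : ℕ} {ω : List (ℕ ⊕ ℕ)} (h1 : ∀ a ∈ pl ω, a < s) (h2 : ∀ b ∈ pr ω, b < s') :
    ∀ c ∈ ω, c ∈ alph s s' := by
  intro c hc
  unfold alph
  cases c with
  | inl a =>
    exact List.mem_append_left _ (List.mem_map_of_mem (List.mem_range.2 (h1 a (inl_mem_pl.2 hc))))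
  | inr b =>
    exact List.mem_append_right _ (List.mem_map_of_mem (List.mem_range.2 (h2 b (inr_mem_pr.2 hc))))

/-! ### Soundness -/

lemma ws_eq_of_agree (hNER : Stmt_NER) (hLAM : Stmt_LAM) (S S' : HSystem) (i j : ℕ)
    (hi : NES S S' i) (hj : NES S S' j)
    (h : ∀ n < lam (sz S) (sz S') (fun a => blk S i a) (fun b => blk S' i b) *
      lam (sz S) (sz S') (fun a => blk S j a) (fun b => blk S' j b),
      ∀ ω ∈ wordsOf (alph (sz S) (sz S')) n, (ω ∈ WS S S' i ↔ ω ∈ WS S S' j)) :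
    WS S S' i = WS S S' j := by
  refine hNER _ _ _ _ (hLAM _ _ _ _ hi) (hLAM _ _ _ _ hj) fun ω hω => ?_
  by_cases hp : (∀ a ∈ pl ω, a < sz S) ∧ ∀ b ∈ pr ω, b < sz S'
  · exact h _ hω ω ((mem_wordsOf _ _ _).2 ⟨rfl, mem_alph hp.1 hp.2⟩)
  · constructor
    · intro h1; exact absurd ⟨h1.1, h1.2.1⟩ hp
    · intro h1; exact absurd ⟨h1.1, h1.2.1⟩ hp

lemma cert1_sound (hNER : Stmt_NER) (hLAM : Stmt_LAM) (hPER : Stmt_PER) (S S' : HSystem)
    (hS : Proper S) (hS' : Proper S') (i j : ℕ) (h : cert1 S S' i j) :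
    ∀ n, term S n ≠ term S' n := by
  obtain ⟨hij, hi, hj, hag, hno⟩ := h
  have hW := ws_eq_of_agree hNER hLAM S S' i j hi hj hag
  have hper := hPER S S' i j hS hS' hi hj hW
  intro n
  induction n using Nat.strong_induction_on with
  | _ n ih =>
    rcases lt_or_ge n j with hn | hn
    · exact hno n hn
    · obtain ⟨m, rfl⟩ := Nat.exists_eq_add_of_le hn
      have h1 := hper m
      rw [Nat.add_comm j m]
      intro h2
      exact ih (m + i) (by omega) (h1.2 h2)

lemma cert2_sound (hLSO : Stmt_LSO) (S S' : HSystem)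
    (hS : Proper S) (hS' : Proper S') (hz : 0 < sz S) (hz' : 0 < sz S') (k N : ℕ)
    (h : cert2 S S' k N) : ∀ n, term S n ≠ term S' n := by
  obtain ⟨hk, hne, hcert, hno⟩ := h
  intro n
  rcases lt_or_ge n N with hn | hn
  · exact hno n hn
  · intro h2
    have := hLSO S S' k N hS hS' hz hz' hne hk hcert n hn
    rw [h2] at this
    exact lt_irrefl _ this

/-! ### The classes -/

lemma balanced_symm {S S' : HSystem} (h : Balanced S S') : Balanced S' S := by
  obtain ⟨C, k₀, h⟩ := h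
  refine ⟨C, k₀, fun k hk b hb a ha => ?_⟩
  obtain ⟨h1, h2, h3, h4⟩ := h k hk a ha b hb
  exact ⟨h2, h1, h4, h3⟩

lemma sz_pos_of_primitive {S : HSystem} (h : Primitive S) : 0 < sz S := by
  obtain ⟨_, _, _, a, ha, _⟩ := h
  omega

/-- Equal languages at two levels. -/
def EqLev (S S' : HSystem) : Prop :=
  ∃ i j, i < j ∧ NES S S' i ∧ NES S S' j ∧ WS S S' i = WS S S' j

/-- The length alternative. -/
def LenLev (S S' : HSystem) : Prop := S'.1 ≠ [] ∧ ∃ k N, 0 < k ∧ lenCert S S' k N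

lemma eqLev_of_balanced (hFAM : Stmt_FAM) (hCNT : Stmt_CNT) (S S' : HSystem) (hz : 0 < sz S)
    (hz' : 0 < sz S') (hB : Balanced S S') (hP : PowerBounded S) : EqLev S S' := by
  obtain ⟨C, k₀, hB⟩ := hB
  obtain ⟨K, hK⟩ := hP
  obtain ⟨N, hN⟩ := hCNT (sz S) (sz S') C K hz hz'
  obtain ⟨i, j, hi, hij, hW⟩ := hFAM (sz S) (sz S') N k₀ (fun k => WS S S' k)
    (fun k _ ω hω => ⟨hω.1, hω.2.1⟩)
    (fun k hk => hN (fun a => blk S k a) (fun b => blk S' k b)
      (fun a ha b hb => hB k hk a ha b hb) (fun a ha => hK k a ha))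
  have hne : ∀ k ≥ k₀, NES S S' k := by
    intro k hk
    refine ⟨fun a ha => ?_, fun b hb => ?_⟩
    · exact List.ne_nil_of_length_pos (hB k hk a ha 0 hz').1
    · exact List.ne_nil_of_length_pos (hB k hk 0 hz b hb).2.1
  exact ⟨i, j, hij, hne i hi, hne j (by omega), hW⟩

lemma covered_cases (hFAM : Stmt_FAM) (hCNT : Stmt_CNT) (hDIC : Stmt_DIC) (hLEN : Stmt_LEN)
    (hAPB : Stmt_APB) (S S' : HSystem) (h : Covered S S') :
    Proper S ∧ Proper S' ∧ 0 < sz S ∧ 0 < sz S' ∧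
      (EqLev S S' ∨ EqLev S' S ∨ LenLev S S' ∨ LenLev S' S) := by
  have key : Proper S → Proper S' → 0 < sz S → 0 < sz S' → Balanced S S' →
      (PowerBounded S ∨ PowerBounded S') → EqLev S S' ∨ EqLev S' S := by
    intro _ _ hz hz' hB hP
    rcases hP with hP | hP
    · exact Or.inl (eqLev_of_balanced hFAM hCNT S S' hz hz' hB hP)
    · exact Or.inr (eqLev_of_balanced hFAM hCNT S' S hz' hz (balanced_symm hB) hP)
  rcases h with ⟨hS, hS', hper⟩ | ⟨hS, hS', hz, hz', hB, hP⟩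
  · have hz := sz_pos_of_primitive hS
    have hz' := sz_pos_of_primitive hS'
    refine ⟨hS.1, hS'.1, hz, hz', ?_⟩
    rcases hDIC S S' hS hS' with hB | hL | hL
    · have hP : PowerBounded S ∨ PowerBounded S' := by
        rcases hper with h | h
        · exact Or.inl (hAPB S hS h)
        · exact Or.inr (hAPB S' hS' h)
      rcases key hS.1 hS'.1 hz hz' hB hP with h | h
      · exact Or.inl h
      · exact Or.inr (Or.inl h)
    · exact Or.inr (Or.inr (Or.inl ⟨hS'.2.1, hLEN S S' hS hS' hL⟩))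
    · refine Or.inr (Or.inr (Or.inr ⟨hS.2.1, hLEN S' S hS' hS ?_⟩))
      obtain ⟨k, hk, h⟩ := hL
      exact ⟨k, hk, fun b hb a ha => h a ha b hb⟩
  · refine ⟨hS, hS', hz, hz', ?_⟩
    rcases key hS hS' hz hz' hB hP with h | h
    · exact Or.inl h
    · exact Or.inr (Or.inl h)

/-! ### Periodicity -/

lemma periodic_of_eqLev (hPER : Stmt_PER) (S S' : HSystem) (hS : Proper S) (hS' : Proper S')
    (h : EqLev S S') : ∃ N p, 0 < p ∧ ∀ n ≥ N,
      (term S n = term S' n ↔ term S (n + p) = term S' (n + p)) := by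
  obtain ⟨i, j, hij, hi, hj, hW⟩ := h
  refine ⟨i, j - i, by omega, fun n hn => ?_⟩
  obtain ⟨m, rfl⟩ := Nat.exists_eq_add_of_le hn
  have h1 := hPER S S' i j hS hS' hi hj hW m
  rw [Nat.add_comm i m, show m + i + (j - i) = m + j by omega]
  exact h1

lemma periodic_of_lenLev (hLSO : Stmt_LSO) (S S' : HSystem) (hS : Proper S) (hS' : Proper S')
    (hz : 0 < sz S) (hz' : 0 < sz S') (h : LenLev S S') : ∃ N p, 0 < p ∧ ∀ n ≥ N,
      (term S n = term S' n ↔ term S (n + p) = term S' (n + p)) := by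
  obtain ⟨hne, k, N, hk, hc⟩ := h
  have h1 := hLSO S S' k N hS hS' hz hz' hne hk hc
  have h2 : ∀ n ≥ N, ¬ term S n = term S' n := by
    intro n hn h
    have := h1 n hn
    rw [h] at this
    exact lt_irrefl _ this
  exact ⟨N, 1, one_pos, fun n hn => ⟨fun h => absurd h (h2 n hn),
    fun h => absurd h (h2 (n + 1) (by omega))⟩⟩

lemma swap_periodic {S S' : HSystem} (h : ∃ N p, 0 < p ∧ ∀ n ≥ N,
      (term S' n = term S n ↔ term S' (n + p) = term S (n + p))) : ∃ N p, 0 < p ∧ ∀ n ≥ N,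
      (term S n = term S' n ↔ term S (n + p) = term S' (n + p)) := by
  obtain ⟨N, p, hp, h⟩ := h
  exact ⟨N, p, hp, fun n hn => ⟨fun h1 => ((h n hn).1 h1.symm).symm,
    fun h1 => ((h n hn).2 h1.symm).symm⟩⟩

/-! ### The combined certificate -/

/-- The combined certificate. -/
def cert (S S' : HSystem) (q : ℕ × ℕ) : Prop :=
  (cert1 S S' q.1 q.2 ∨ cert1 S' S q.1 q.2) ∨ (cert2 S S' q.1 q.2 ∨ cert2 S' S q.1 q.2)

lemma cert_sound (hNER : Stmt_NER) (hLAM : Stmt_LAM) (hPER : Stmt_PER) (hLSO : Stmt_LSO)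
    (S S' : HSystem) (hS : Proper S) (hS' : Proper S') (hz : 0 < sz S) (hz' : 0 < sz S')
    (q : ℕ × ℕ) (h : cert S S' q) : ∀ n, term S n ≠ term S' n := by
  rcases h with (h | h) | (h | h)
  · exact cert1_sound hNER hLAM hPER S S' hS hS' _ _ h
  · exact fun n => (cert1_sound hNER hLAM hPER S' S hS' hS _ _ h n).symm
  · exact cert2_sound hLSO S S' hS hS' hz hz' _ _ h
  · exact fun n => (cert2_sound hLSO S' S hS' hS hz' hz _ _ h n).symm

lemma cert1_of_eqLev (S S' : HSystem) (h : EqLev S S') (hE : ∀ n, term S n ≠ term S' n) :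
    ∃ i j, cert1 S S' i j := by
  obtain ⟨i, j, hij, hi, hj, hW⟩ := h
  exact ⟨i, j, hij, hi, hj, fun n _ ω _ => by rw [hW], fun n _ => hE n⟩

lemma cert_exists (S S' : HSystem)
    (h : EqLev S S' ∨ EqLev S' S ∨ LenLev S S' ∨ LenLev S' S) (hE : ∀ n, term S n ≠ term S' n) :
    ∃ q, cert S S' q := by
  rcases h with h | h | h | h
  · obtain ⟨i, j, hc⟩ := cert1_of_eqLev S S' h hE
    exact ⟨(i, j), Or.inl (Or.inl hc)⟩
  · obtain ⟨i, j, hc⟩ := cert1_of_eqLev S' S h (fun n => (hE n).symm)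
    exact ⟨(i, j), Or.inl (Or.inr hc)⟩
  · obtain ⟨hne, k, N, hk, hc⟩ := h
    exact ⟨(k, N), Or.inr (Or.inl ⟨hk, hne, hc, fun n _ => hE n⟩)⟩
  · obtain ⟨hne, k, N, hk, hc⟩ := h
    exact ⟨(k, N), Or.inr (Or.inr ⟨hk, hne, hc, fun n _ => (hE n).symm⟩)⟩

lemma primrec_cert (h1 : Stmt_CM1) (h2 : Stmt_CM2) :
    PrimrecPred fun q : (HSystem × HSystem) × (ℕ × ℕ) => cert q.1.1 q.1.2 q.2 := by
  have hsw : Primrec fun q : (HSystem × HSystem) × (ℕ × ℕ) => (((q.1.2, q.1.1), q.2) :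
      (HSystem × HSystem) × (ℕ × ℕ)) :=
    Primrec.pair (Primrec.pair (Primrec.snd.comp Primrec.fst) (Primrec.fst.comp Primrec.fst))
      Primrec.snd
  have a1 : PrimrecPred fun q : (HSystem × HSystem) × (ℕ × ℕ) => cert1 q.1.1 q.1.2 q.2.1 q.2.2 :=
    h1
  have a2 : PrimrecPred fun q : (HSystem × HSystem) × (ℕ × ℕ) => cert1 q.1.2 q.1.1 q.2.1 q.2.2 :=
    PrimrecPred.comp h1 hsw
  have a3 : PrimrecPred fun q : (HSystem × HSystem) × (ℕ × ℕ) => cert2 q.1.1 q.1.2 q.2.1 q.2.2 :=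
    h2
  have a4 : PrimrecPred fun q : (HSystem × HSystem) × (ℕ × ℕ) => cert2 q.1.2 q.1.1 q.2.1 q.2.2 :=
    PrimrecPred.comp h2 hsw
  exact (a1.or a2).or (a3.or a4)

theorem stmt_FIN (hNER : Stmt_NER) (hFAM : Stmt_FAM) (hCNT : Stmt_CNT) (hLAM : Stmt_LAM)
    (hPER : Stmt_PER) (hDIC : Stmt_DIC) (hLEN : Stmt_LEN) (hLSO : Stmt_LSO) (hAPB : Stmt_APB)
    (hCM1 : Stmt_CM1) (hCM2 : Stmt_CM2) : Stmt_FIN := by
  constructor
  · let t₁ : HSystem × HSystem → ℕ → Bool := fun s k => decide (term s.1 k = term s.2 k)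
    obtain ⟨hdec, hpr⟩ := primrec_cert hCM1 hCM2
    let c : (HSystem × HSystem) × (ℕ × ℕ) → Bool := fun q => @decide _ (hdec q)
    have hc : ∀ q, c q = true ↔ cert q.1.1 q.1.2 q.2 := fun q => @decide_eq_true_iff _ (hdec q)
    let t₂ : HSystem × HSystem → ℕ → Bool := fun s k => c (s, k.unpair)
    have ht₁ : Computable₂ t₁ := by
      have h : PrimrecPred fun p : (HSystem × HSystem) × ℕ => term p.1.1 p.2 = term p.1.2 p.2 :=
        Primrec.eq.comp (primrec_term.comp (Primrec.fst.comp Primrec.fst) Primrec.snd)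
          (primrec_term.comp (Primrec.snd.comp Primrec.fst) Primrec.snd)
      exact h.decide.to_comp
    have ht₂ : Computable₂ t₂ := by
      have hpr' : Primrec c := hpr
      have h : Primrec fun p : (HSystem × HSystem) × ℕ => c (p.1, p.2.unpair) :=
        hpr'.comp (Primrec.pair Primrec.fst (Primrec.unpair.comp Primrec.snd))
      exact h.to_comp
    have ht : Computable₂ fun s k => t₁ s k || t₂ s k :=
      Primrec.or.to_comp.comp ht₁ ht₂
    refine ⟨fun s => (Nat.rfind fun k => Part.some (t₁ s k || t₂ s k)).map fun k => t₁ s k,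
      (Partrec.rfind ht.partrec₂).map ht₁, fun S S' hcov => ?_⟩
    obtain ⟨hS, hS', hz, hz', hlev⟩ := covered_cases hFAM hCNT hDIC hLEN hAPB S S' hcov
    refine ⟨fun hE => ?_, fun hE => ?_⟩
    · have h2 : ∀ k, t₂ (S, S') k = false := by
        intro k
        by_contra hcon
        have h3 : c ((S, S'), k.unpair) = true := by
          simpa [t₂] using hcon
        have h4 := (hc _).1 h3
        obtain ⟨n, hn⟩ := hE
        exact cert_sound hNER hLAM hPER hLSO S S' hS hS' hz hz' _ h4 n hn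
      obtain ⟨n, hn⟩ := hE
      have h1 : (t₁ (S, S') n || t₂ (S, S') n) = true := by simp [t₁, hn]
      obtain ⟨k, hk, _⟩ := Nat.rfind_min' (p := fun k => t₁ (S, S') k || t₂ (S, S') k) h1
      refine Part.mem_map_iff _ |>.2 ⟨k, hk, ?_⟩
      have h3 : true ∈ Part.some (t₁ (S, S') k || t₂ (S, S') k) := Nat.rfind_spec hk
      rw [Part.mem_some_iff, h2 k, Bool.or_false] at h3
      exact h3.symm
    · have hE' : ∀ n, term S n ≠ term S' n := fun n h => hE ⟨n, h⟩
      have h1 : ∀ k, t₁ (S, S') k = false := by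
        intro k
        simp only [t₁, decide_eq_false_iff_not]
        exact fun h => hE ⟨k, h⟩
      obtain ⟨q, hq⟩ := cert_exists S S' hlev hE'
      have h2 : (t₁ (S, S') (Nat.pair q.1 q.2) || t₂ (S, S') (Nat.pair q.1 q.2)) = true := by
        have : t₂ (S, S') (Nat.pair q.1 q.2) = true := by
          change c ((S, S'), (Nat.pair q.1 q.2).unpair) = true
          rw [Nat.unpair_pair, hc]
          exact hq
        rw [this, Bool.or_true]
      obtain ⟨k, hk, _⟩ := Nat.rfind_min' (p := fun k => t₁ (S, S') k || t₂ (S, S') k) h2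
      exact Part.mem_map_iff _ |>.2 ⟨k, hk, h1 k⟩
  · intro S S' hcov
    obtain ⟨hS, hS', hz, hz', hlev⟩ := covered_cases hFAM hCNT hDIC hLEN hAPB S S' hcov
    rcases hlev with h | h | h | h
    · exact periodic_of_eqLev hPER S S' hS hS' h
    · exact swap_periodic (periodic_of_eqLev hPER S' S hS' hS h)
    · exact periodic_of_lenLev hLSO S S' hS hS' hz hz' h
    · exact swap_periodic (periodic_of_lenLev hLSO S' S hS' hS hz' hz h)

end Pool.HD.helper77
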