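import Mathlib
import Pool.Agent.Work.MP_4cd38d_pr_helper77.FIN
import Pool.Agent.Work.MP_4cd38d_pr_helper77.CM

set_option autoImplicit false

/-!
Assembly, computable form: one algorithm computes preperiod and period of the coincidence set.
-/

namespace Pool.HD.helper77

open Pool.Agent.Work.MP_4cd38d_lc Pool.Agent.Work.MP_4cd38d_pr

/-- Equal languages at the levels `i < j`, in checkable form. -/
def c1 (S S' : HSystem) (i j : ℕ) : Prop :=
  i < j ∧ NES S S' i ∧ NES S S' j ∧
  ∀ n < lam (sz S) (sz S') (fun a => blk S i a) (fun b => blk S' i b) *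
      lam (sz S) (sz S') (fun a => blk S j a) (fun b => blk S' j b),
    ∀ ω ∈ wordsOf (alph (sz S) (sz S')) n, (ω ∈ WS S S' i ↔ ω ∈ WS S S' j)

/-- The second system has longer words from `N` on, in checkable form. -/
def c2 (S S' : HSystem) (k N : ℕ) : Prop := 0 < k ∧ S'.1 ≠ [] ∧ lenCert S S' k N

/-- The equality certificates. -/
def cA (S S' : HSystem) (q : ℕ × ℕ) : Prop := c1 S S' q.1 q.2 ∨ c1 S' S q.1 q.2

/-- The length certificates. -/
def cB (S S' : HSystem) (q : ℕ × ℕ) : Prop := c2 S S' q.1 q.2 ∨ c2 S' S q.1 q.2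

lemma primrec_c1 {α : Type*} [Primcodable α] {S S' : α → HSystem} {i j : α → ℕ}
    (hS : Primrec S) (hS' : Primrec S') (hi : Primrec i) (hj : Primrec j) :
    PrimrecPred fun x => c1 (S x) (S' x) (i x) (j x) := by
  have h1 : PrimrecPred fun x => i x < j x := Primrec.nat_lt.comp hi hj
  have h2 := primrec_NES hS hS' hi
  have h3 := primrec_NES hS hS' hj
  have h4 := primrec_agree stmt_CMW hS hS' hi hj
    (Primrec.nat_mul.comp (primrec_lam hS hS' hi) (primrec_lam hS hS' hj))
  exact h1.and (h2.and (h3.and h4))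

lemma primrec_c2 {α : Type*} [Primcodable α] {S S' : α → HSystem} {i j : α → ℕ}
    (hS : Primrec S) (hS' : Primrec S') (hi : Primrec i) (hj : Primrec j) :
    PrimrecPred fun x => c2 (S x) (S' x) (i x) (j x) := by
  have h1 : PrimrecPred fun x => 0 < i x := Primrec.nat_lt.comp (Primrec.const 0) hi
  have h2 : PrimrecPred fun x => (S' x).1 ≠ [] :=
    (Primrec.eq.comp (Primrec.fst.comp hS') (Primrec.const [])).not
  have h3 := primrec_cmp1 hS hS' hi
  have h4 := primrec_cmp2 hS hS' hi hj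
  exact h1.and (h2.and (h3.and h4))

/-- The periodicity statement. -/
def Per (S S' : HSystem) (N p : ℕ) : Prop :=
  0 < p ∧ ∀ n ≥ N, (term S n = term S' n ↔ term S (n + p) = term S' (n + p))

lemma per_swap {S S' : HSystem} {N p : ℕ} (h : Per S' S N p) : Per S S' N p := by
  refine ⟨h.1, fun n hn => ?_⟩
  rw [eq_comm, h.2 n hn, eq_comm]

lemma per_c1 (hNER : Stmt_NER) (hLAM : Stmt_LAM) (hPER : Stmt_PER) {S S' : HSystem}
    (hS : Proper S) (hS' : Proper S') {i j : ℕ} (h : c1 S S' i j) : Per S S' i (j - i) := by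
  obtain ⟨hij, hi, hj, hag⟩ := h
  have hW := ws_eq_of_agree hNER hLAM S S' i j hi hj hag
  refine ⟨by omega, fun n hn => ?_⟩
  obtain ⟨m, rfl⟩ := Nat.exists_eq_add_of_le hn
  have h1 := hPER S S' i j hS hS' hi hj hW m
  rw [Nat.add_comm i m, show m + i + (j - i) = m + j by omega]
  exact h1

lemma per_c2 (hLSO : Stmt_LSO) {S S' : HSystem} (hS : Proper S) (hS' : Proper S')
    (hz : 0 < sz S) (hz' : 0 < sz S') {k N : ℕ} (h : c2 S S' k N) : Per S S' N 1 := by
  obtain ⟨hk, hne, hc⟩ := h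
  have h1 := hLSO S S' k N hS hS' hz hz' hne hk hc
  have h2 : ∀ n ≥ N, ¬ term S n = term S' n := by
    intro n hn h
    have := h1 n hn
    rw [h] at this
    exact lt_irrefl _ this
  exact ⟨one_pos, fun n hn => ⟨fun h => absurd h (h2 n hn), fun h => absurd h (h2 (n + 1) (by omega))⟩⟩

lemma c1_of_eqLev {S S' : HSystem} (h : EqLev S S') : ∃ q : ℕ × ℕ, c1 S S' q.1 q.2 := by
  obtain ⟨i, j, hij, hi, hj, hW⟩ := h
  exact ⟨(i, j), hij, hi, hj, fun n _ ω _ => by rw [hW]⟩

lemma exists_cert {S S' : HSystem}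
    (h : EqLev S S' ∨ EqLev S' S ∨ LenLev S S' ∨ LenLev S' S) :
    ∃ q : ℕ × ℕ, cA S S' q ∨ cB S S' q := by
  rcases h with h | h | h | h
  · obtain ⟨q, hq⟩ := c1_of_eqLev h
    exact ⟨q, Or.inl (Or.inl hq)⟩
  · obtain ⟨q, hq⟩ := c1_of_eqLev h
    exact ⟨q, Or.inl (Or.inr hq)⟩
  · obtain ⟨hne, k, N, hk, hc⟩ := h
    exact ⟨(k, N), Or.inr (Or.inl ⟨hk, hne, hc⟩)⟩
  · obtain ⟨hne, k, N, hk, hc⟩ := h
    exact ⟨(k, N), Or.inr (Or.inr ⟨hk, hne, hc⟩)⟩

theorem fin_computable (hNER : Stmt_NER) (hFAM : Stmt_FAM) (hCNT : Stmt_CNT) (hLAM : Stmt_LAM)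
    (hPER : Stmt_PER) (hDIC : Stmt_DIC) (hLEN : Stmt_LEN) (hLSO : Stmt_LSO) (hAPB : Stmt_APB) :
    ∃ f : HSystem × HSystem →. ℕ × ℕ, Partrec f ∧ ∀ S S' : HSystem, Covered S S' →
      ∃ N p, (N, p) ∈ f (S, S') ∧ 0 < p ∧
        ∀ n ≥ N, (term S n = term S' n ↔ term S (n + p) = term S' (n + p)) := by
  have hS : Primrec fun x : (HSystem × HSystem) × ℕ => x.1.1 := Primrec.fst.comp Primrec.fst
  have hS' : Primrec fun x : (HSystem × HSystem) × ℕ => x.1.2 := Primrec.snd.comp Primrec.fst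
  have hi : Primrec fun x : (HSystem × HSystem) × ℕ => x.2.unpair.1 :=
    Primrec.fst.comp (Primrec.unpair.comp Primrec.snd)
  have hj : Primrec fun x : (HSystem × HSystem) × ℕ => x.2.unpair.2 :=
    Primrec.snd.comp (Primrec.unpair.comp Primrec.snd)
  have hA : PrimrecPred fun x : (HSystem × HSystem) × ℕ => cA x.1.1 x.1.2 x.2.unpair :=
    (primrec_c1 hS hS' hi hj).or (primrec_c1 hS' hS hi hj)
  have hB : PrimrecPred fun x : (HSystem × HSystem) × ℕ => cB x.1.1 x.1.2 x.2.unpair :=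
    (primrec_c2 hS hS' hi hj).or (primrec_c2 hS' hS hi hj)
  classical
  let tA : HSystem × HSystem → ℕ → Bool := fun s k => decide (cA s.1 s.2 k.unpair)
  let tB : HSystem × HSystem → ℕ → Bool := fun s k => decide (cB s.1 s.2 k.unpair)
  have htA : Primrec₂ tA := hA.decide
  have htB : Primrec₂ tB := hB.decide
  have ht : Computable₂ fun s k => tA s k || tB s k := (Primrec.or.comp htA htB).to_comp
  let out : HSystem × HSystem → ℕ → ℕ × ℕ := fun s k =>
    bif tA s k then (k.unpair.1, k.unpair.2 - k.unpair.1) else (k.unpair.2, 1)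
  have hout : Computable₂ out := by
    have h : Primrec fun x : (HSystem × HSystem) × ℕ => out x.1 x.2 :=
      Primrec.cond htA (Primrec.pair hi (Primrec.nat_sub.comp hj hi))
        (Primrec.pair hj (Primrec.const 1))
    exact h.to_comp
  refine ⟨fun s => (Nat.rfind fun k => Part.some (tA s k || tB s k)).map fun k => out s k,
    (Partrec.rfind ht.partrec₂).map hout, fun S S' hcov => ?_⟩
  obtain ⟨hP, hP', hz, hz', hlev⟩ := covered_cases hFAM hCNT hDIC hLEN hAPB S S' hcov
  obtain ⟨q, hq⟩ := exists_cert hlev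
  have h1 : (tA (S, S') (Nat.pair q.1 q.2) || tB (S, S') (Nat.pair q.1 q.2)) = true := by
    simp only [tA, tB, Nat.unpair_pair, Bool.or_eq_true, decide_eq_true_eq]
    exact hq
  obtain ⟨k, hk, _⟩ := Nat.rfind_min' (p := fun k => tA (S, S') k || tB (S, S') k) h1
  have h3 : true ∈ Part.some (tA (S, S') k || tB (S, S') k) := Nat.rfind_spec hk
  rw [Part.mem_some_iff] at h3
  refine ⟨(out (S, S') k).1, (out (S, S') k).2, Part.mem_map_iff _ |>.2 ⟨k, hk, rfl⟩, ?_⟩
  change Per S S' (out (S, S') k).1 (out (S, S') k).2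
  by_cases hA' : tA (S, S') k = true
  · have hval : out (S, S') k = (k.unpair.1, k.unpair.2 - k.unpair.1) := by
      simp only [out, hA', cond_true]
    rw [hval]
    have h4 : cA S S' k.unpair := by
      simpa [tA] using hA'
    rcases h4 with h4 | h4
    · exact per_c1 hNER hLAM hPER hP hP' h4
    · exact per_swap (per_c1 hNER hLAM hPER hP' hP h4)
  · have hA'' : tA (S, S') k = false := by simpa using hA'
    have hval : out (S, S') k = (k.unpair.2, 1) := by
      simp only [out, hA'', cond_false]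
    rw [hval]
    have h4 : cB S S' k.unpair := by
      rw [hA'', Bool.false_or] at h3
      simpa [tB] using h3.symm
    rcases h4 with h4 | h4
    · exact per_c2 hLSO hP hP' hz hz' h4
    · exact per_swap (per_c2 hLSO hP' hP hz' hz h4)

end Pool.HD.helper77
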