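import Mathlib
import Pool.Agent.Work.MP_4cd38d_pr.Interface

set_option autoImplicit false

/-!
Two languages with few residuals are separated by a short word.
-/

namespace Pool.HD.helper77

open Pool.Agent.Work.MP_4cd38d_lc Pool.Agent.Work.MP_4cd38d_pr

theorem stmt_NER : Stmt_NER := by
  intro L L' N N' ⟨c, hc⟩ ⟨c', hc'⟩ hag
  by_contra hne
  have hex : ∃ n, ∃ ω : List (ℕ ⊕ ℕ), ω.length = n ∧ ¬ (ω ∈ L ↔ ω ∈ L') := by
    by_contra hcon
    push Not at hcon
    apply hne
    ext ω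
    exact hcon _ ω rfl
  classical
  obtain ⟨ω, hω, hbad⟩ := Nat.find_spec hex
  have hmin : ∀ ω' : List (ℕ ⊕ ℕ), ω'.length < ω.length → (ω' ∈ L ↔ ω' ∈ L') := by
    intro ω' h
    rw [hω] at h
    by_contra hcon
    exact Nat.find_min hex h ⟨ω', rfl, hcon⟩
  have hlen : N * N' ≤ ω.length := by
    by_contra hcon
    exact hbad (hag ω (not_le.1 hcon))
  -- pigeonhole on the prefixes
  have hcard : Fintype.card (Fin N × Fin N') < Fintype.card (Fin (N * N' + 1)) := by
    simp
  obtain ⟨i, j, hij, heq⟩ := Fintype.exists_ne_map_eq_of_card_lt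
    (fun i : Fin (N * N' + 1) => (c (ω.take i), c' (ω.take i))) hcard
  obtain ⟨i, j, hlt, heq⟩ : ∃ i j : Fin (N * N' + 1), i < j ∧
      (c (ω.take i), c' (ω.take i)) = (c (ω.take j), c' (ω.take j)) := by
    rcases lt_or_gt_of_ne hij with h | h
    · exact ⟨i, j, h, heq⟩
    · exact ⟨j, i, h, heq.symm⟩
  have h1 := hc _ _ (Prod.ext_iff.1 heq).1 (ω.drop j)
  have h2 := hc' _ _ (Prod.ext_iff.1 heq).2 (ω.drop j)
  rw [List.take_append_drop] at h1 h2
  apply hbad
  rw [← h1, ← h2]
  apply hmin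
  have hj : (j : ℕ) ≤ ω.length := by have := j.2; omega
  have hi : (i : ℕ) < (j : ℕ) := hlt
  rw [List.length_append, List.length_take, List.length_drop]
  omega

end Pool.HD.helper77
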